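import Pool.Agent.Helper15.TS.St

/-!
Project TS (MP_434a84_lc), module FUL: slimness excludes spans of full dimension.
-/

namespace Pool.Agent.Helper74.TS

open Pool.Agent.Helper22.FL Pool.Agent.Helper22.CS Pool.Agent.Helper15.TS

theorem toQ_inj {n : ℕ} : Function.Injective (toQ : (Fin n → ℕ) → Fin n → ℚ) := by
  intro x y h
  funext i
  have h1 := congrFun h i
  simp only [toQ] at h1
  exact_mod_cast h1

theorem finrank_spQ {n : ℕ} (P : Finset (Fin n → ℕ))
    (h : LinearIndepOn ℚ toQ (P : Set (Fin n → ℕ))) :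
    Module.finrank ℚ (spQ P) = P.card := by
  classical
  have h1 : spQ P = Submodule.span ℚ (Set.range fun p : P => toQ (p : Fin n → ℕ)) := by
    unfold spQ
    congr 1
    ext x
    constructor
    · rintro ⟨p, hp, rfl⟩
      exact ⟨⟨p, hp⟩, rfl⟩
    · rintro ⟨p, rfl⟩
      exact ⟨p, p.2, rfl⟩
  rw [h1]
  have h2 := finrank_span_eq_card (R := ℚ) (b := fun p : P => toQ (p : Fin n → ℕ)) h
  rw [h2, Fintype.card_coe]

theorem spQ_supp {n : ℕ} (P : Finset (Fin n → ℕ)) (i : Fin n) (h : ∀ p ∈ P, p i = 0)
    (x : Fin n → ℚ) (hx : x ∈ spQ P) : x i = 0 := by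
  have h1 : spQ P ≤ LinearMap.ker (LinearMap.proj (R := ℚ) (φ := fun _ : Fin n => ℚ) i) := by
    unfold spQ
    rw [Submodule.span_le]
    rintro _ ⟨p, hp, rfl⟩
    simp only [SetLike.mem_coe, LinearMap.mem_ker, LinearMap.proj_apply, toQ]
    rw [h p hp]
    rfl
  exact h1 hx

theorem stful : StFUL := by
  classical
  intro n S R hR hS r hr I v hI hv hsp
  have hsub : (restr r.2 I : Finset (Fin n → ℕ)) ⊆ r.2 := Finset.filter_subset _ _
  have hind : LinearIndepOn ℚ toQ ((restr r.2 I : Finset _) : Set (Fin n → ℕ)) :=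
    (hR.1 r hr).mono (by exact_mod_cast hsub)
  have hfin := finrank_spQ _ hind
  have hlet : ∀ p ∈ restr r.2 I, letters p ⊆ I := fun p hp => (Finset.mem_filter.1 hp).2
  have hL : lettersOf (restr r.2 I) = I := by
    apply Finset.Subset.antisymm
    · intro i hi
      obtain ⟨p, hp, hpi⟩ := Finset.mem_biUnion.1 hi
      exact hlet p hp hpi
    · intro i hi
      by_contra hcon
      have h0 : ∀ p ∈ restr r.2 I, p i = 0 := by
        intro p hp
        by_contra hpi
        apply hcon
        refine Finset.mem_biUnion.2 ⟨p, hp, ?_⟩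
        simp [letters, hpi]
      have h1 := spQ_supp _ i h0 _ hsp
      have h2 := hv i hi
      simp only [toQ] at h1
      have h3 : v i = 0 := by exact_mod_cast h1
      omega
  refine ⟨hL, ?_⟩
  have hle : Module.finrank ℚ (spQ (restr r.2 I)) ≤ I.card := by
    let W : Submodule ℚ (Fin n → ℚ) :=
      Submodule.span ℚ (Set.range fun i : I => (Pi.single (i : Fin n) (1 : ℚ) : Fin n → ℚ))
    have hW : Module.finrank ℚ W ≤ I.card := by
      have h := finrank_range_le_card (R := ℚ)
        (b := fun i : I => (Pi.single (i : Fin n) (1 : ℚ) : Fin n → ℚ))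
      rw [Fintype.card_coe] at h
      exact h
    refine le_trans (Submodule.finrank_mono ?_) hW
    unfold spQ
    rw [Submodule.span_le]
    rintro _ ⟨p, hp, rfl⟩
    have hx : toQ p = ∑ i ∈ I, (p i : ℚ) • (Pi.single i (1 : ℚ) : Fin n → ℚ) := by
      funext j
      simp only [toQ, Finset.sum_apply, Pi.smul_apply, smul_eq_mul]
      by_cases hj : j ∈ I
      · rw [Finset.sum_eq_single j]
        · simp
        · intro b _ hb
          rw [Pi.single_eq_of_ne (Ne.symm hb)]
          simp
        · intro h
          exact absurd hj h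
      · have hpj : p j = 0 := by
          by_contra hpj
          exact hj (hlet p hp (by simp [letters, hpj]))
        rw [hpj, Finset.sum_eq_zero]
        · simp
        · intro b hb
          have : j ≠ b := fun h => hj (h ▸ hb)
          rw [Pi.single_eq_of_ne this]
          simp
    rw [hx]
    refine Submodule.sum_mem _ fun i hi => Submodule.smul_mem _ _ ?_
    exact Submodule.subset_span ⟨⟨i, hi⟩, rfl⟩
  rw [hfin] at hle ⊢
  rcases Nat.lt_or_ge (restr r.2 I).card I.card with h | h
  · exact h
  · exfalso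
    have heq : (restr r.2 I).card = I.card := le_antisymm hle h
    have hlin : lin r.1 (restr r.2 I) ⊆ S := by
      rintro x ⟨t, rfl⟩
      refine (hR.2 _).2 ⟨r, hr, fun p => if p ∈ restr r.2 I then t p else 0, ?_⟩
      congr 1
      rw [← Finset.sum_subset hsub]
      · refine Finset.sum_congr rfl fun p hp => ?_
        simp only [if_pos hp]
      · intro p _ hp
        simp only [if_neg hp, zero_smul]
    have := hS r.1 (restr r.2 I) hlin hind (by omega)
    rw [hL] at this
    omega

end Pool.Agent.Helper74.TS
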