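import Pool.Agent.Helper15.TS.St

/-!
# Project TS (MP_434a84_lc), module HOM: closure under homomorphisms, with a word in front
-/

set_option autoImplicit false

namespace Pool.Agent.Helper74.TS

open Pool.Agent.Helper22.FL Pool.Agent.Helper22.CS Pool.Agent.Helper15.TS

open Symbol

variable {A T N N' : Type}

/-- the words of symbols substituted for a symbol -/
def hs (h : A → List T) : Symbol A N → List (Symbol T (Option N))
  | terminal a => (h a).map terminal
  | nonterminal X => [nonterminal (some X)]

theorem der_terms {R : Set (ContextFreeRule T N')} {β : List (Symbol T N')} {w : List T}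
    (hd : Der R β w) (u : List T) : Der R (u.map terminal ++ β) (u ++ w) := by
  induction u with
  | nil => exact hd
  | cons t u ih => exact .term t ih

theorem interp_terms {I : N' → Language T} {β : List (Symbol T N')} (u : List T) {w : List T}
    (hw : Interp I (u.map terminal ++ β) w) : ∃ w', w = u ++ w' ∧ Interp I β w' := by
  induction u generalizing w with
  | nil => exact ⟨w, rfl, hw⟩
  | cons t u ih =>
    obtain ⟨w1, rfl, hw1⟩ := hw
    obtain ⟨w', rfl, hw'⟩ := ih hw1
    exact ⟨w', rfl, hw'⟩

/-- the transformed rule -/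
def hr (h : A → List T) (r : ContextFreeRule A N) : ContextFreeRule T (Option N) :=
  ⟨some r.input, r.output.flatMap (hs h)⟩

theorem der_hom (h : A → List T) {R : Set (ContextFreeRule A N)}
    {R' : Set (ContextFreeRule T (Option N))} (hR : ∀ r ∈ R, hr h r ∈ R')
    {α : List (Symbol A N)} {w : List A} (hd : Der R α w) :
    Der R' (α.flatMap (hs h)) (w.flatMap h) := by
  induction hd with
  | nil => exact .nil
  | term t _ ih =>
    rw [List.flatMap_cons, List.flatMap_cons]
    exact der_terms ih (h t)
  | @nonterm r α u w hr' _ _ ih1 ih2 =>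
    rw [List.flatMap_cons, List.flatMap_append]
    exact Der.nonterm (r := hr h r) (hR r hr') ih1 ih2

theorem interp_hom (h : A → List T) {R : Set (ContextFreeRule A N)}
    {I : Option N → Language T} (hI : ∀ X, ∀ w ∈ I (some X), ∃ w0 ∈ lang R X, w = w0.flatMap h)
    {α : List (Symbol A N)} {w : List T} (hw : Interp I (α.flatMap (hs h)) w) :
    ∃ w0, w = w0.flatMap h ∧ Der R α w0 := by
  induction α generalizing w with
  | nil => exact ⟨[], hw, .nil⟩
  | cons a α ih =>
    rw [List.flatMap_cons] at hw
    cases a with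
    | terminal t =>
      obtain ⟨w', rfl, h'⟩ := interp_terms (h t) hw
      obtain ⟨w0, rfl, h0⟩ := ih h'
      exact ⟨t :: w0, rfl, .term t h0⟩
    | nonterminal X =>
      obtain ⟨u, v, rfl, hu, hv⟩ := hw
      obtain ⟨u0, hu0, rfl⟩ := hI X u hu
      obtain ⟨v0, rfl, hv0⟩ := ih hv
      exact ⟨u0 ++ v0, (List.flatMap_append).symm, Der.append (α := [nonterminal X]) hu0 hv0⟩

theorem sthom : StHOM := by
  intro A T L h z hL
  obtain ⟨N, R, X, hR, rfl⟩ := exists_lang hL
  let R' : Set (ContextFreeRule T (Option N)) :=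
    {⟨none, z.map terminal ++ [nonterminal (some X)]⟩} ∪ hr h '' R
  have hR' : R'.Finite := (Set.toFinite _).union (hR.image _)
  have hsub : ∀ r ∈ R, hr h r ∈ R' := fun r hr' => Or.inr ⟨r, hr', rfl⟩
  have key : ({x | ∃ w ∈ lang R X, x = z ++ w.flatMap h} : Language T) = lang R' none := by
    ext x
    constructor
    · rintro ⟨w, hw, rfl⟩
      have h1 := der_hom h hsub (show Der R [nonterminal X] w from hw)
      exact der_nt_iff.2 ⟨⟨none, z.map terminal ++ [nonterminal (some X)]⟩, Or.inl rfl, rfl,
        der_terms h1 z⟩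
    · intro hx
      let I : Option N → Language T := fun Y => match Y with
        | none => {x | ∃ w ∈ lang R X, x = z ++ w.flatMap h}
        | some Y => {x | ∃ w ∈ lang R Y, x = w.flatMap h}
      refine lang_sound I ?_ none hx
      rintro r (rfl | ⟨r, hr', rfl⟩) w hw
      · obtain ⟨w', rfl, hw'⟩ := interp_terms z hw
        obtain ⟨u, v, rfl, hu, hv⟩ := hw'
        rw [show v = [] from hv, List.append_nil]
        obtain ⟨w0, hw0, rfl⟩ := hu
        exact ⟨w0, hw0, rfl⟩
      · obtain ⟨w0, rfl, h0⟩ := interp_hom h (R := R) (I := I)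
          (fun Y v hv => hv) hw
        exact ⟨w0, der_nt_iff.2 ⟨r, hr', rfl, h0⟩, rfl⟩
  rw [key]
  exact isContextFree_lang hR' none

end Pool.Agent.Helper74.TS
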